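import Pool.Agent.T9h90.SP.Spec

set_option autoImplicit false
set_option linter.unusedSectionVars false

/-! (SQ): dependent choice for `Sigma_1` relations in a model of `RCA_0`. -/

namespace Pool.Agent.T9h77.SP

open Pool.Agent.Helper617.RM Pool.Agent.H645R2.R Pool.Agent.T9h90.SP

universe u

variable {N : L2Structure.{u}} [IsModelRCA0 N]

/-- matrix of a unary `Sigma_1` relation -/
theorem mat1 {K : N.M → Prop} (hK : S1 (fun v => K (v 0))) :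
    ∃ k0 : N.M → N.M → Prop, D0 (fun v => k0 (v 0) (v 1)) ∧ ∀ x, K x ↔ ∃ k, k0 x k := by
  obtain ⟨Q, hQ, hKQ⟩ := hK
  refine ⟨fun x k => Q (fun _ => x) k, ?_, fun x => hKQ (fun _ => x)⟩
  exact hQ.comp (g := fun v => cons (v 1) (fun _ => v 0)) (CM.cons (Tm.var 1) (fun i => Tm.var 0))

theorem mat2 {R : N.M → N.M → Prop} (hR : S1 (fun v => R (v 0) (v 1))) :
    ∃ r0 : N.M → N.M → N.M → Prop, D0 (fun v => r0 (v 0) (v 1) (v 2)) ∧
      ∀ x y, R x y ↔ ∃ k, r0 x y k := by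
  obtain ⟨Q, hQ, hRQ⟩ := hR
  refine ⟨fun x y k => Q (cons x (fun _ => y)) k, ?_, fun x y => hRQ (cons x (fun _ => y))⟩
  exact hQ.comp (g := fun v => cons (v 2) (cons (v 0) (fun _ => v 1)))
    (CM.cons (Tm.var 2) (CM.cons (Tm.var 0) (fun i => Tm.var 1)))

theorem rel3 {R : N.M → N.M → N.M → Prop} (h : D0 (fun v => R (v 0) (v 1) (v 2)))
    {s t r : Ctx N → N.M} (hs : Tm s) (ht : Tm t) (hr : Tm r) :
    D0 (fun v => R (s v) (t v) (r v)) :=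
  h.comp (g := fun v => cons (s v) (cons (t v) (cons (r v) v)))
    (CM.cons hs (CM.cons ht (CM.cons hr CM.id)))

/-- `u` codes a point of `K` with a witness -/
def Gd (k0 : N.M → N.M → Prop) (u : N.M) : Prop :=
  ∃ x, x ≤ u ∧ ∃ w, w ≤ u ∧ (u = pr x w ∧ ∃ k, k < w ∧ k0 x k)

/-- `u'` codes a point `y` with witnesses of `K y` and `R x y` -/
def Wt (k0 : N.M → N.M → Prop) (r0 : N.M → N.M → N.M → Prop) (x u' : N.M) : Prop :=
  ∃ y, y ≤ u' ∧ ∃ w, w ≤ u' ∧ (u' = pr y w ∧ ((∃ k, k < w ∧ k0 y k) ∧ ∃ k, k < w ∧ r0 x y k))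

/-- `u'` is a possible successor of `u` -/
def St (k0 : N.M → N.M → Prop) (r0 : N.M → N.M → N.M → Prop) (u u' : N.M) : Prop :=
  ∃ x, x ≤ u ∧ ∃ w, w ≤ u ∧ (u = pr x w ∧ Wt k0 r0 x u')

/-- the total relation -/
def PP (k0 : N.M → N.M → Prop) (r0 : N.M → N.M → N.M → Prop) (u u' : N.M) : Prop :=
  (Gd k0 u ∧ St k0 r0 u u') ∨ (¬ Gd k0 u ∧ u' = 0)

theorem Gd_D0 {k0 : N.M → N.M → Prop} (hk : D0 (fun v => k0 (v 0) (v 1))) :
    D0 (fun v => Gd k0 (v 0)) :=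
  D0.bexLe (Tm.var 0) (D0.bexLe (Tm.var 1) (D0.and (D0.eq (Tm.var 2) ((Tm.var 1).pr (Tm.var 0)))
    (D0.bex (Tm.var 0) (D0.rel hk (Tm.var 2) (Tm.var 0)))))

theorem Wt_D0 {k0 : N.M → N.M → Prop} (hk : D0 (fun v => k0 (v 0) (v 1)))
    {r0 : N.M → N.M → N.M → Prop} (hr : D0 (fun v => r0 (v 0) (v 1) (v 2))) :
    D0 (fun v => Wt k0 r0 (v 0) (v 1)) :=
  D0.bexLe (Tm.var 1) (D0.bexLe (Tm.var 2) (D0.and (D0.eq (Tm.var 3) ((Tm.var 1).pr (Tm.var 0)))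
    (D0.and (D0.bex (Tm.var 0) (D0.rel hk (Tm.var 2) (Tm.var 0)))
      (D0.bex (Tm.var 0) (rel3 hr (Tm.var 3) (Tm.var 2) (Tm.var 0))))))

theorem St_D0 {k0 : N.M → N.M → Prop} (hk : D0 (fun v => k0 (v 0) (v 1)))
    {r0 : N.M → N.M → N.M → Prop} (hr : D0 (fun v => r0 (v 0) (v 1) (v 2))) :
    D0 (fun v => St k0 r0 (v 0) (v 1)) :=
  D0.bexLe (Tm.var 0) (D0.bexLe (Tm.var 1) (D0.and (D0.eq (Tm.var 2) ((Tm.var 1).pr (Tm.var 0)))
    (D0.rel (Wt_D0 hk hr) (Tm.var 1) (Tm.var 3))))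

theorem PP_D0 {k0 : N.M → N.M → Prop} (hk : D0 (fun v => k0 (v 0) (v 1)))
    {r0 : N.M → N.M → N.M → Prop} (hr : D0 (fun v => r0 (v 0) (v 1) (v 2))) :
    D0 (fun v => PP k0 r0 (v 0) (v 1)) :=
  D0.or (D0.and (D0.pred (Gd_D0 hk) (Tm.var 0)) (D0.rel (St_D0 hk hr) (Tm.var 0) (Tm.var 1)))
    (D0.and (D0.pred (Gd_D0 hk) (Tm.var 0)).not (D0.eq (Tm.var 1) Tm.zero))

theorem sq : S_SQ.{u} := by
  intro N _ K R hK hR hex hstep
  obtain ⟨k0, hk, hKk⟩ := mat1 hK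
  obtain ⟨r0, hr, hRr⟩ := mat2 hR
  have tot : ∀ u, ∃ u', PP k0 r0 u u' := by
    intro u
    by_cases hu : Gd k0 u
    · obtain ⟨x, hx, w, hw, hxw, k, hkw, hkk⟩ := hu
      obtain ⟨y, hy1, hy2⟩ := hstep x ((hKk x).2 ⟨k, hkk⟩)
      obtain ⟨k1, hk1⟩ := (hKk y).1 hy1
      obtain ⟨k2, hk2⟩ := (hRr x y).1 hy2
      refine ⟨pr y (max k1 k2 + 1), Or.inl ⟨⟨x, hx, w, hw, hxw, k, hkw, hkk⟩, x, hx, w, hw, hxw,
        y, fst_le_pr _ _, max k1 k2 + 1, snd_le_pr _ _, rfl, ⟨k1, ?_, hk1⟩, k2, ?_, hk2⟩⟩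
      · exact lt1_of_le (le_max_left _ _)
      · exact lt1_of_le (le_max_right _ _)
    · exact ⟨0, Or.inr ⟨hu, rfl⟩⟩
  have least : ∀ u, ∃ u', PP k0 r0 u u' ∧ ∀ m, m < u' → ¬ PP k0 r0 u m := by
    intro u
    obtain ⟨u', hu'⟩ := tot u
    obtain ⟨n, -, h1, h2⟩ := lnp_D0 (P := fun u' => PP k0 r0 u u')
      (D0.rel (PP_D0 hk hr) (Tm.const u) (Tm.var 0)) u' hu'
    exact ⟨n, h1, h2⟩
  choose G hG1 hG2 using least
  have hGD : D0 (fun v : Ctx N => v 1 = G (v 0)) := by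
    refine D0.congr (R := fun v => PP k0 r0 (v 0) (v 1) ∧ ∀ m, m < v 1 → ¬ PP k0 r0 (v 0) m)
      (D0.and (PP_D0 hk hr) (D0.ball (Tm.var 1)
        (D0.rel (PP_D0 hk hr) (Tm.var 1) (Tm.var 0)).not)) fun v => ?_
    constructor
    · rintro ⟨h1, h2⟩
      rcases lt_trichotomy (v 1) (G (v 0)) with h | h | h
      · exact absurd h1 (hG2 _ _ h)
      · exact h
      · exact absurd (hG1 (v 0)) (h2 _ h)
    · intro h
      rw [h]
      exact ⟨hG1 _, hG2 _⟩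
  obtain ⟨a, ha⟩ := hex
  obtain ⟨ka, hka⟩ := (hKk a).1 ha
  obtain ⟨f, hfD, hf0, hfs⟩ := exists_recursion hGD (pr a (ka + 1))
  have hgood : ∀ n, Gd k0 (f n) := by
    intro n
    refine ind_S1 (P := fun n => Gd k0 (f n)) ?_ ?_ ?_ n
    · refine S1.congr (R := fun v => ∃ u, u = f (v 0) ∧ Gd k0 u) ?_ fun v => by simp
      exact S1.ex (S1.and (D0.rel (R := fun k x => x = f k) hfD (Tm.var 1) (Tm.var 0)).S1
        (D0.pred (Gd_D0 hk) (Tm.var 0)).S1)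
    · rw [hf0]
      exact ⟨a, fst_le_pr _ _, ka + 1, snd_le_pr _ _, rfl, ka, lt1 ka, hka⟩
    · intro n hn
      rcases hG1 (f n) with ⟨-, h⟩ | ⟨h, -⟩
      · rw [← hfs n] at h
        obtain ⟨x, -, w, -, -, y, hy, w', hw', h1, ⟨k, hkw, hkk⟩, -⟩ := h
        exact ⟨y, hy, w', hw', h1, k, hkw, hkk⟩
      · exact absurd hn h
  have hstp : ∀ n, St k0 r0 (f n) (f (n + 1)) := by
    intro n
    rcases hG1 (f n) with ⟨-, h⟩ | ⟨h, -⟩
    · rw [← hfs n] at h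
      exact h
    · exact absurd (hgood n) h
  have hgood' := hgood
  choose g hg1 wg hg2 hg3 kg hg4 hg5 using hgood'
  refine ⟨g, ?_, fun n => ⟨(hKk _).2 ⟨kg n, hg5 n⟩, ?_⟩⟩
  · refine d0_of_D1 (R := fun n y => y = g n) ?_ ?_
    · refine S1.congr (R := fun v => ∃ u, u = f (v 0) ∧ ∃ w, w ≤ u ∧ u = pr (v 1) w) ?_
        fun v => ?_
      · exact S1.ex (S1.and (D0.rel (R := fun k x => x = f k) hfD (Tm.var 1) (Tm.var 0)).S1
          (D0.bexLe (Tm.var 0) (D0.eq (Tm.var 1) ((Tm.var 3).pr (Tm.var 0)))).S1)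
      · constructor
        · rintro ⟨u, rfl, w, -, hw⟩
          rw [hg3 (v 0)] at hw
          exact (pr_inj hw).1.symm
        · intro h
          exact ⟨_, rfl, wg (v 0), hg2 _, by rw [h]; exact hg3 _⟩
    · refine S1.congr (R := fun v => ∃ u, u = f (v 0) ∧
        ∃ x, x ≤ u ∧ ∃ w, w ≤ u ∧ (u = pr x w ∧ ¬ v 1 = x)) ?_ fun v => ?_
      · exact S1.ex (S1.and (D0.rel (R := fun k x => x = f k) hfD (Tm.var 1) (Tm.var 0)).S1
          (D0.bexLe (Tm.var 0) (D0.bexLe (Tm.var 1) (D0.and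
            (D0.eq (Tm.var 2) ((Tm.var 1).pr (Tm.var 0)))
            (D0.eq (Tm.var 4) (Tm.var 1)).not))).S1)
      · constructor
        · rintro ⟨u, rfl, x, -, w, -, hw, hne⟩ h
          rw [hg3 (v 0)] at hw
          exact hne (h.trans (pr_inj hw).1)
        · intro h
          exact ⟨_, rfl, g (v 0), hg1 _, wg (v 0), hg2 _, hg3 _, h⟩
  · obtain ⟨x, -, w, -, h1, y, -, w', -, h2, -, k, -, hk2⟩ := hstp n
    have e1 : g n = x := (pr_inj ((hg3 n).symm.trans h1)).1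
    have e2 : g (n + 1) = y := (pr_inj ((hg3 (n + 1)).symm.trans h2)).1
    rw [e1, e2]
    exact (hRr _ _).2 ⟨k, hk2⟩

end Pool.Agent.T9h77.SP
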